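import Mathlib
import Pool.Agent.Q254.D30555c

/-!
# The product of a tree and a graph can have gonality below the expected value

For the tree `T` with two vertices and a connected multigraph `H` with 6 vertices and gonality 3,
the product has gonality at most 5, while the expected gonality is `min 6 (2 * 3) = 6`.
-/

namespace Pool.Agent.Results.MP_30555c_co.TreeProductBelow

open Pool.Agent.Q254.Chip

theorem result :
    ∃ (T : MGraph (Fin 2)) (H : MGraph (Fin 6)), T.IsTree ∧ H.Connected ∧ H.gonality = 3 ∧
      (T.box H).gonality ≤ 5 ∧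
      (T.box H).gonality ≠ min (Fintype.card (Fin 6)) (Fintype.card (Fin 2) * H.gonality) := by
  refine ⟨Pool.Agent.Q254.D30555c.T, Pool.Agent.Q254.D30555c.H, Pool.Agent.Q254.D30555c.treeT,
    Pool.Agent.Q254.D30555c.connectedH, Pool.Agent.Q254.D30555c.gonH,
    Pool.Agent.Q254.D30555c.gonProd, ?_⟩
  rw [Pool.Agent.Q254.D30555c.gonH]
  have h := Pool.Agent.Q254.D30555c.gonProd
  simp only [Fintype.card_fin]
  have h6 : min 6 (2 * 3) = 6 := by norm_num
  rw [h6]
  omega

end Pool.Agent.Results.MP_30555c_co.TreeProductBelow
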